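import Mathlib

/-!
# MP_88b750_co: minimal wall length in the middle regime

For all `m ≥ 5` and `T_{m-2} ≤ n < T_{m-1}` the minimal internal wall length of an admissible tiling of `[0,n]²` by `m`
rectangles is `n + 2(m-2)`.
-/

set_option autoImplicit false

namespace Pool.Agent.Results.MP_88b750_co.MiddleRegime

/-- the triangular number `T_j = j (j+1) / 2` -/
def T (j : ℕ) : ℕ := j * (j + 1) / 2

/-- the closed rectangle with lower left corner `(x, y)`, width `a` and height `b` -/
def tile (x y : ℝ) (a b : ℕ) : Set (ℝ × ℝ) := Set.Icc x (x + a) ×ˢ Set.Icc y (y + b)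

/-- an admissible tiling of `[0,n]²` by `m` rectangles: tile `i` has lower left corner `(x i, y i)`, width `a i` and
height `b i` (positive integers), the interiors are pairwise disjoint, the union is the square, and the unordered pairs
`{a i, b i}` are pairwise distinct -/
def Admissible (n m : ℕ) (x y : Fin m → ℝ) (a b : Fin m → ℕ) : Prop :=
  (∀ i, 0 < a i ∧ 0 < b i) ∧
  ⋃ i, tile (x i) (y i) (a i) (b i) = Set.Icc (0 : ℝ) n ×ˢ Set.Icc (0 : ℝ) n ∧
  (∀ i j, i ≠ j → Disjoint (interior (tile (x i) (y i) (a i) (b i))) (interior (tile (x j) (y j) (a j) (b j)))) ∧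
  ∀ i j, i ≠ j → ¬ ((a i = a j ∧ b i = b j) ∨ (a i = b j ∧ b i = a j))

/-- the internal wall length -/
def W (n m : ℕ) (a b : Fin m → ℕ) : ℤ := ∑ i, ((a i : ℤ) + b i) - 2 * n

/-! ## geometry: reduction to a partition of the cells -/

theorem integral_x (n m : ℕ) (x y : Fin m → ℝ) (a b : Fin m → ℕ) (hb : ∀ i, 0 < a i ∧ 0 < b i)
    (hin : ∀ i, 0 ≤ x i ∧ x i + a i ≤ n ∧ 0 ≤ y i ∧ y i + b i ≤ n)
    (hcov : ∀ p q : ℝ, 0 ≤ p → p ≤ n → 0 ≤ q → q ≤ n →
      ∃ i, x i ≤ p ∧ p ≤ x i + a i ∧ y i ≤ q ∧ q ≤ y i + b i)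
    (hdis : ∀ i j, i ≠ j → ∀ p q : ℝ, x i < p → p < x i + a i → y i < q → q < y i + b i →
      x j < p → p < x j + a j → y j < q → q < y j + b j → False) :
    ∀ i, ∃ z : ℕ, x i = z := by
  classical
  by_contra hcon
  push Not at hcon
  obtain ⟨i0, hi0⟩ := hcon
  -- a tile with minimal non-integral left coordinate
  obtain ⟨i, hi, hmin⟩ := Finset.exists_min_image (Finset.univ.filter fun i => ∀ z : ℕ, x i ≠ z) x
    ⟨i0, by simpa using hi0⟩
  have hi' : ∀ z : ℕ, x i ≠ z := by simpa using hi
  have hxpos : 0 < x i := by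
    rcases lt_or_eq_of_le (hin i).1 with h | h
    · exact h
    · exact absurd h.symm (by simpa using hi' 0)
  have hai : (0 : ℝ) < a i := by exact_mod_cast (hb i).1
  have hbi : (0 : ℝ) < b i := by exact_mod_cast (hb i).2
  set q : ℝ := y i + b i / 2 with hq
  have hq0 : 0 ≤ q := by have := (hin i).2.2.1; linarith
  have hqn : q ≤ n := by have := (hin i).2.2.2; linarith
  have hxn : x i ≤ n := by have := (hin i).2.1; linarith
  -- the tiles that meet the horizontal line to the left of the tile
  set F := Finset.univ.filter fun j => x j < x i ∧ y j ≤ q ∧ q ≤ y j + b j with hF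
  have hmemF : ∀ j, j ∈ F ↔ x j < x i ∧ y j ≤ q ∧ q ≤ y j + b j := by intro j; simp [hF]
  have hFne : F.Nonempty := by
    obtain ⟨j, h1, h2, h3, h4⟩ := hcov 0 q (le_refl _) (by positivity) hq0 hqn
    exact ⟨j, (hmemF j).2 ⟨by linarith, h3, h4⟩⟩
  obtain ⟨j, hj, hjmax⟩ := Finset.exists_max_image F (fun j => x j + a j) hFne
  obtain ⟨hj1, hj2, hj3⟩ := (hmemF j).1 hj
  have hge : x i ≤ x j + a j := by
    by_contra hlt
    push Not at hlt
    have hj0 := (hin j).1
    have haj : (0 : ℝ) < a j := by exact_mod_cast (hb j).1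
    obtain ⟨l, h1, h2, h3, h4⟩ := hcov ((x j + a j + x i) / 2) q (by linarith) (by linarith) hq0 hqn
    have := hjmax l ((hmemF l).2 ⟨by linarith, h3, h4⟩)
    linarith
  have hne : i ≠ j := by rintro rfl; exact lt_irrefl _ hj1
  rcases lt_or_eq_of_le hge with hgt | heq
  · -- interiors overlap
    have hbj : (0 : ℝ) < b j := by exact_mod_cast (hb j).2
    obtain ⟨p, hp1, hp2⟩ : ∃ p, x i < p ∧ p < min (x i + a i) (x j + a j) :=
      exists_between (lt_min (by linarith) hgt)
    obtain ⟨r, hr1, hr2⟩ : ∃ r, max (y i) (y j) < r ∧ r < min (y i + b i) (y j + b j) := by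
      apply exists_between
      refine max_lt (lt_min (by linarith) ?_) (lt_min ?_ (by linarith))
      · linarith
      · linarith
    have h1 := lt_of_lt_of_le hp2 (min_le_left _ _)
    have h2 := lt_of_lt_of_le hp2 (min_le_right _ _)
    have h3 := lt_of_le_of_lt (le_max_left _ _) hr1
    have h4 := lt_of_le_of_lt (le_max_right _ _) hr1
    have h5 := lt_of_lt_of_le hr2 (min_le_left _ _)
    have h6 := lt_of_lt_of_le hr2 (min_le_right _ _)
    exact hdis i j hne p r hp1 h1 h3 h5 (by linarith) h2 h4 h6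
  · have hjn : ∀ z : ℕ, x j ≠ z := by
      intro z hz
      apply hi' (z + a j)
      push_cast
      rw [heq, hz]
    have := hmin j (by simpa using hjn)
    linarith

/-- the cell `(u, v)` lies in tile `i` -/
def cellIn {m : ℕ} (X Y a b : Fin m → ℕ) (u v : ℕ) (i : Fin m) : Prop :=
  X i ≤ u ∧ u < X i + a i ∧ Y i ≤ v ∧ v < Y i + b i

theorem cells_of_admissible (n m : ℕ) (x y : Fin m → ℝ) (a b : Fin m → ℕ) (h : Admissible n m x y a b) :
    ∃ X Y : Fin m → ℕ, (∀ i, X i + a i ≤ n ∧ Y i + b i ≤ n) ∧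
      ∀ u < n, ∀ v < n, ∃! i, cellIn X Y a b u v i := by
  obtain ⟨hpos, hun, hdis, -⟩ := h
  have hin : ∀ i, 0 ≤ x i ∧ x i + a i ≤ n ∧ 0 ≤ y i ∧ y i + b i ≤ n := by
    intro i
    have hsub : tile (x i) (y i) (a i) (b i) ⊆ Set.Icc (0 : ℝ) n ×ˢ Set.Icc (0 : ℝ) n := by
      rw [← hun]; exact Set.subset_iUnion (fun i => tile (x i) (y i) (a i) (b i)) i
    have hai : (0 : ℝ) < a i := by exact_mod_cast (hpos i).1
    have hbi : (0 : ℝ) < b i := by exact_mod_cast (hpos i).2
    have h1 : ((x i, y i) : ℝ × ℝ) ∈ tile (x i) (y i) (a i) (b i) :=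
      ⟨⟨le_refl _, by simp⟩, ⟨le_refl _, by simp⟩⟩
    have h2 : ((x i + a i, y i + b i) : ℝ × ℝ) ∈ tile (x i) (y i) (a i) (b i) :=
      ⟨⟨by simp, le_refl _⟩, ⟨by simp, le_refl _⟩⟩
    have h1' := hsub h1
    have h2' := hsub h2
    exact ⟨h1'.1.1, h2'.1.2, h1'.2.1, h2'.2.2⟩
  have hcov : ∀ p q : ℝ, 0 ≤ p → p ≤ n → 0 ≤ q → q ≤ n →
      ∃ i, x i ≤ p ∧ p ≤ x i + a i ∧ y i ≤ q ∧ q ≤ y i + b i := by
    intro p q h1 h2 h3 h4
    have : ((p, q) : ℝ × ℝ) ∈ ⋃ i, tile (x i) (y i) (a i) (b i) := by
      rw [hun]; exact ⟨⟨h1, h2⟩, ⟨h3, h4⟩⟩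
    obtain ⟨i, hi⟩ := Set.mem_iUnion.1 this
    exact ⟨i, hi.1.1, hi.1.2, hi.2.1, hi.2.2⟩
  have hdis' : ∀ i j, i ≠ j → ∀ p q : ℝ, x i < p → p < x i + a i → y i < q → q < y i + b i →
      x j < p → p < x j + a j → y j < q → q < y j + b j → False := by
    intro i j hij p q h1 h2 h3 h4 h5 h6 h7 h8
    have hd := hdis i j hij
    rw [tile, tile, interior_prod_eq, interior_prod_eq, interior_Icc, interior_Icc, interior_Icc, interior_Icc,
      Set.disjoint_left] at hd
    exact hd (show ((p, q) : ℝ × ℝ) ∈ _ from ⟨⟨h1, h2⟩, ⟨h3, h4⟩⟩) ⟨⟨h5, h6⟩, ⟨h7, h8⟩⟩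
  have hX := integral_x n m x y a b hpos hin hcov hdis'
  have hY := integral_x n m y x b a (fun i => ⟨(hpos i).2, (hpos i).1⟩)
    (fun i => ⟨(hin i).2.2.1, (hin i).2.2.2, (hin i).1, (hin i).2.1⟩)
    (fun p q h1 h2 h3 h4 => by
      obtain ⟨i, g1, g2, g3, g4⟩ := hcov q p h3 h4 h1 h2
      exact ⟨i, g3, g4, g1, g2⟩)
    (fun i j hij p q h1 h2 h3 h4 h5 h6 h7 h8 => hdis' i j hij q p h3 h4 h1 h2 h7 h8 h5 h6)
  choose X hX using hX
  choose Y hY using hY
  refine ⟨X, Y, ?_, ?_⟩
  · intro i
    have h1 := (hin i).2.1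
    have h2 := (hin i).2.2.2
    rw [hX] at h1
    rw [hY] at h2
    exact ⟨by exact_mod_cast h1, by exact_mod_cast h2⟩
  · intro u hu v hv
    have hu' : (u : ℝ) + 1 ≤ n := by exact_mod_cast hu
    have hv' : (v : ℝ) + 1 ≤ n := by exact_mod_cast hv
    have hu0 : (0 : ℝ) ≤ u := Nat.cast_nonneg _
    have hv0 : (0 : ℝ) ≤ v := Nat.cast_nonneg _
    obtain ⟨i, h1, h2, h3, h4⟩ := hcov (u + 1 / 2) (v + 1 / 2) (by linarith) (by linarith) (by linarith) (by linarith)
    rw [hX] at h1 h2
    rw [hY] at h3 h4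
    refine ⟨i, ?_, ?_⟩
    · refine ⟨?_, ?_, ?_, ?_⟩
      · have : (X i : ℝ) < u + 1 := by linarith
        have : X i < u + 1 := by exact_mod_cast this
        omega
      · have : (u : ℝ) < X i + a i := by linarith
        exact_mod_cast this
      · have : (Y i : ℝ) < v + 1 := by linarith
        have : Y i < v + 1 := by exact_mod_cast this
        omega
      · have : (v : ℝ) < Y i + b i := by linarith
        exact_mod_cast this
    · intro j hj
      by_contra hne
      obtain ⟨g1, g2, g3, g4⟩ := hj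
      have k1 : (X j : ℝ) ≤ u := by exact_mod_cast g1
      have k2 : (u : ℝ) + 1 ≤ X j + a j := by exact_mod_cast g2
      have k3 : (Y j : ℝ) ≤ v := by exact_mod_cast g3
      have k4 : (v : ℝ) + 1 ≤ Y j + b j := by exact_mod_cast g4
      have l1 : (X i : ℝ) ≤ u := by
        have : (X i : ℝ) < u + 1 := by linarith
        have : X i < u + 1 := by exact_mod_cast this
        exact_mod_cast Nat.lt_succ_iff.1 this
      have l2 : (u : ℝ) + 1 ≤ X i + a i := by
        have : (u : ℝ) < X i + a i := by linarith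
        have : u < X i + a i := by exact_mod_cast this
        exact_mod_cast this
      have l3 : (Y i : ℝ) ≤ v := by
        have : (Y i : ℝ) < v + 1 := by linarith
        have : Y i < v + 1 := by exact_mod_cast this
        exact_mod_cast Nat.lt_succ_iff.1 this
      have l4 : (v : ℝ) + 1 ≤ Y i + b i := by
        have : (v : ℝ) < Y i + b i := by linarith
        have : v < Y i + b i := by exact_mod_cast this
        exact_mod_cast this
      refine hdis' i j (Ne.symm hne) (u + 1 / 2) (v + 1 / 2) ?_ ?_ ?_ ?_ ?_ ?_ ?_ ?_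
      · rw [hX]; linarith
      · rw [hX]; linarith
      · rw [hY]; linarith
      · rw [hY]; linarith
      · rw [hX]; linarith
      · rw [hX]; linarith
      · rw [hY]; linarith
      · rw [hY]; linarith

/-! ## counting -/

section counting

open Finset

/-- row identity: the widths of the tiles that cross the row `v` sum to `n` -/
theorem row_identity {n m : ℕ} {X Y a b : Fin m → ℕ} (hin : ∀ i, X i + a i ≤ n ∧ Y i + b i ≤ n)
    (hc : ∀ u < n, ∀ v < n, ∃! i, cellIn X Y a b u v i) (v : ℕ) (hv : v < n) :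
    ∑ i ∈ univ.filter (fun i => Y i ≤ v ∧ v < Y i + b i), a i = n := by
  classical
  have h1 : ∀ i, a i = ((range n).filter fun u => X i ≤ u ∧ u < X i + a i).card := by
    intro i
    have : ((range n).filter fun u => X i ≤ u ∧ u < X i + a i) = Ico (X i) (X i + a i) := by
      ext u; simp only [mem_filter, mem_range, mem_Ico]
      have := (hin i).1
      constructor
      · rintro ⟨_, h⟩; exact h
      · rintro h; exact ⟨by omega, h⟩
    rw [this, Nat.card_Ico]; omega
  have h2 : ∑ i ∈ univ.filter (fun i => Y i ≤ v ∧ v < Y i + b i), a i =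
      ∑ i ∈ univ.filter (fun i => Y i ≤ v ∧ v < Y i + b i), ∑ u ∈ range n, if X i ≤ u ∧ u < X i + a i then 1 else 0 := by
    refine sum_congr rfl fun i _ => ?_
    rw [← card_filter]; exact h1 i
  rw [h2, sum_comm]
  have h3 : ∀ u ∈ range n, (∑ i ∈ univ.filter (fun i => Y i ≤ v ∧ v < Y i + b i),
      if X i ≤ u ∧ u < X i + a i then 1 else 0) = 1 := by
    intro u hu
    rw [← card_filter, filter_filter]
    obtain ⟨i, hi, hui⟩ := hc u (mem_range.1 hu) v hv
    rw [card_eq_one]
    refine ⟨i, ?_⟩
    ext j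
    simp only [mem_filter, mem_univ, true_and, mem_singleton]
    constructor
    · rintro ⟨⟨g1, g2⟩, g3, g4⟩
      exact hui j ⟨g3, g4, g1, g2⟩
    · rintro rfl
      exact ⟨⟨hi.2.2.1, hi.2.2.2⟩, hi.1, hi.2.1⟩
  rw [sum_congr rfl h3]; simp

/-- the sum of the heights over a set of tiles, counted by rows -/
theorem sum_heights {n m : ℕ} {Y b : Fin m → ℕ} (hin : ∀ i, Y i + b i ≤ n) (J : Finset (Fin m)) :
    ∑ i ∈ J, b i = ∑ v ∈ range n, (J.filter fun i => Y i ≤ v ∧ v < Y i + b i).card := by
  classical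
  have h1 : ∀ i, b i = ∑ v ∈ range n, if Y i ≤ v ∧ v < Y i + b i then 1 else 0 := by
    intro i
    rw [← card_filter]
    have : ((range n).filter fun u => Y i ≤ u ∧ u < Y i + b i) = Ico (Y i) (Y i + b i) := by
      ext u; simp only [mem_filter, mem_range, mem_Ico]
      have := hin i
      constructor
      · rintro ⟨_, h⟩; exact h
      · rintro h; exact ⟨by omega, h⟩
    rw [this, Nat.card_Ico]; omega
  rw [sum_congr rfl fun i _ => h1 i, sum_comm]
  refine sum_congr rfl fun v _ => ?_
  rw [← card_filter]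

/-- distinct positive integers -/
theorem sum_distinct {ι : Type*} [DecidableEq ι] (J : Finset ι) (b : ι → ℕ) (hb : ∀ i ∈ J, 0 < b i)
    (hinj : ∀ i ∈ J, ∀ j ∈ J, b i = b j → i = j) : J.card * (J.card + 1) ≤ 2 * ∑ i ∈ J, b i := by
  classical
  have h1 : ∑ i ∈ J, b i = ∑ x ∈ J.image b, x := by
    rw [sum_image]
    intro i hi j hj h
    exact hinj i hi j hj h
  have h2 : (J.image b).card = J.card := card_image_of_injOn fun i hi j hj h => hinj i hi j hj h
  have key : ∀ (k : ℕ) (S : Finset ℕ), S.card = k → (∀ x ∈ S, 0 < x) → k * (k + 1) ≤ 2 * ∑ x ∈ S, x := by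
    intro k
    induction k with
    | zero => intro S _ _; simp
    | succ k ih =>
      intro S hS hpos
      have hne : S.Nonempty := card_pos.1 (by omega)
      set M := S.max' hne with hM
      have hMmem : M ∈ S := S.max'_mem hne
      have hMge : k + 1 ≤ M := by
        have hsub : S ⊆ Icc 1 M := by
          intro x hx
          exact mem_Icc.2 ⟨hpos x hx, S.le_max' x hx⟩
        have := card_le_card hsub
        rw [hS, Nat.card_Icc] at this
        omega
      have h3 := ih (S.erase M) (by rw [card_erase_of_mem hMmem, hS]; rfl)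
        (fun x hx => hpos x (mem_of_mem_erase hx))
      have h4 : ∑ x ∈ S, x = M + ∑ x ∈ S.erase M, x := (add_sum_erase S (fun x => x) hMmem).symm
      rw [h4]
      nlinarith
  rw [h1]
  exact key J.card (J.image b) h2 (by
    intro x hx
    obtain ⟨i, hi, rfl⟩ := mem_image.1 hx
    exact hb i hi)

/-- the case of a tile of full height -/
theorem full_height {n m : ℕ} {X Y a b : Fin m → ℕ} (hm : 5 ≤ m) (hn1 : (m - 2) * (m - 1) ≤ 2 * n)
    (hn2 : 2 * n < (m - 1) * m)
    (hpos : ∀ i, 0 < a i ∧ 0 < b i) (hin : ∀ i, X i + a i ≤ n ∧ Y i + b i ≤ n)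
    (hc : ∀ u < n, ∀ v < n, ∃! i, cellIn X Y a b u v i)
    (hadm : ∀ i j, i ≠ j → ¬ ((a i = a j ∧ b i = b j) ∨ (a i = b j ∧ b i = a j)))
    (i0 : Fin m) (hi0 : b i0 = n) : 3 * n + 2 * (m - 2) ≤ ∑ i, a i + ∑ i, b i := by
  classical
  have hY0 : Y i0 = 0 := by have := (hin i0).2; omega
  set J : Finset (Fin m) := univ.erase i0 with hJ
  have hJcard : J.card = m - 1 := by rw [hJ, card_erase_of_mem (mem_univ _)]; simp
  have hsa : ∑ i, a i = a i0 + ∑ i ∈ J, a i := (add_sum_erase univ a (mem_univ i0)).symm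
  have hsb : ∑ i, b i = n + ∑ i ∈ J, b i := by rw [← hi0]; exact (add_sum_erase univ b (mem_univ i0)).symm
  obtain ⟨h, hh⟩ : ∃ h, n = a i0 + h := ⟨n - a i0, by have := (hin i0).1; omega⟩
  -- tiles of `J` that cross row `v`
  set R : ℕ → Finset (Fin m) := fun v => J.filter fun i => Y i ≤ v ∧ v < Y i + b i with hR
  have hrow : ∀ v < n, ∑ i ∈ R v, a i = h := by
    intro v hv
    have h1 := row_identity hin hc v hv
    have h2 : univ.filter (fun i => Y i ≤ v ∧ v < Y i + b i) = insert i0 (R v) := by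
      ext i
      simp only [mem_filter, mem_univ, true_and, mem_insert, hR, hJ, mem_erase]
      by_cases hi : i = i0
      · subst hi; simp only [true_or, iff_true]; exact ⟨by omega, by omega⟩
      · simp [hi]
    have h3 : i0 ∉ R v := by simp [hR, hJ]
    rw [h2, sum_insert h3] at h1
    omega
  have hB : ∑ i ∈ J, b i = ∑ v ∈ range n, (R v).card := sum_heights (fun i => (hin i).2) J
  have hle : ∀ j ∈ J, a j ≤ h := by
    intro j hj
    have hYj : Y j < n := by have := (hin j).2; have := (hpos j).2; omega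
    have hjR : j ∈ R (Y j) := by
      simp only [hR, mem_filter]
      exact ⟨hj, le_refl _, by have := (hpos j).2; omega⟩
    rw [← hrow (Y j) hYj]
    exact single_le_sum (f := a) (fun _ _ => Nat.zero_le _) hjR
  have hnpos : 0 < n := by
    rcases Nat.eq_zero_or_pos n with h0 | h0
    · rw [h0] at hn1
      have : 0 < (m - 2) * (m - 1) := Nat.mul_pos (by omega) (by omega)
      omega
    · exact h0
  have hAge : h ≤ ∑ i ∈ J, a i := by
    rw [← hrow 0 hnpos]
    exact sum_le_sum_of_subset (filter_subset _ _)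
  have hJne : J.Nonempty := card_pos.1 (by omega)
  have hhpos : 0 < h := by
    obtain ⟨j, hj⟩ := hJne
    exact lt_of_lt_of_le (hpos j).1 (hle j hj)
  obtain ⟨k, hk⟩ : ∃ k, m = k + 2 := ⟨m - 2, by omega⟩
  have hn1' : k * (k + 1) ≤ 2 * n := by
    rw [hk] at hn1; simpa using hn1
  have hn2' : 2 * n < (k + 1) * (k + 2) := by
    rw [hk] at hn2; simpa using hn2
  have hk3 : 3 ≤ k := by omega
  -- 2k ≤ n
  have h2k : 2 * k ≤ n := by nlinarith
  have hm2 : m - 2 = k := by omega
  rw [hm2]
  by_cases hcase : ∃ j0 ∈ J, a j0 = h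
  · obtain ⟨j0, hj0, hj0h⟩ := hcase
    rcases Nat.lt_or_ge h 2 with hh1 | hh2
    · -- h = 1
      have hh1' : h = 1 := by omega
      exfalso
      have ha1 : ∀ j ∈ J, a j = 1 := by
        intro j hj
        have := hle j hj; have := (hpos j).1; omega
      have hRc : ∀ v ∈ range n, (R v).card = 1 := by
        intro v hv
        have h1 := hrow v (mem_range.1 hv)
        have h2 : ∑ i ∈ R v, a i = (R v).card := by
          rw [card_eq_sum_ones]
          refine sum_congr rfl fun i hi => ha1 i (mem_filter.1 hi).1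
        omega
      rw [sum_congr rfl hRc] at hB
      simp only [sum_const, card_range, smul_eq_mul, mul_one] at hB
      have h3 := sum_distinct J b (fun i _ => (hpos i).2) (by
        intro i hi j hj hij
        by_contra hne
        exact hadm i j hne (Or.inl ⟨by rw [ha1 i hi, ha1 j hj], hij⟩))
      rw [hB, hJcard, hk] at h3
      have : k + 2 - 1 = k + 1 := rfl
      rw [this] at h3
      linarith
    · -- h ≥ 2
      set J1 := J.filter fun j => a j = 1 with hJ1
      have hJ1sub : J1 ⊆ J := filter_subset _ _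
      -- widths
      have hA : h + 2 * k ≤ ∑ i ∈ J, a i + J1.card := by
        have h1 : ∑ i ∈ J, a i = a j0 + ∑ i ∈ J.erase j0, a i := (add_sum_erase J a hj0).symm
        have h2 : J1 ⊆ J.erase j0 := by
          intro j hj
          rw [mem_erase]
          refine ⟨?_, hJ1sub hj⟩
          rintro rfl
          have := (mem_filter.1 hj).2
          omega
        have h3 : ∑ i ∈ J.erase j0, 2 ≤ ∑ i ∈ J.erase j0, (a i + if a i = 1 then 1 else 0) := by
          refine sum_le_sum fun i hi => ?_
          have := (hpos i).1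
          split_ifs <;> omega
        rw [sum_const, smul_eq_mul, card_erase_of_mem hj0, hJcard, sum_add_distrib, ← card_filter] at h3
        have h4 : ((J.erase j0).filter fun i => a i = 1).card ≤ J1.card :=
          card_le_card (filter_subset_filter _ (erase_subset _ _))
        have h5 : (m - 1 - 1) * 2 = 2 * k := by rw [hk]; simp; ring
        omega
      -- excess
      have hE : ∀ v ∈ range n, (J1.filter fun i => Y i ≤ v ∧ v < Y i + b i).card + 2 ≤ 2 * (R v).card := by
        intro v hv
        have h1 := hrow v (mem_range.1 hv)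
        set C := J1.filter fun i => Y i ≤ v ∧ v < Y i + b i with hC
        have hCR : C ⊆ R v := by
          intro i hi
          simp only [hC, hJ1, mem_filter] at hi
          simp only [hR, mem_filter]
          exact ⟨hi.1.1, hi.2⟩
        rcases eq_or_ne C (R v) with heq | hne
        · have h2 : ∑ i ∈ R v, a i = (R v).card := by
            rw [card_eq_sum_ones]
            refine sum_congr rfl fun i hi => ?_
            rw [← heq] at hi
            simp only [hC, hJ1, mem_filter] at hi
            exact hi.1.2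
          rw [heq]; omega
        · have h2 : C.card < (R v).card := card_lt_card (lt_of_le_of_ne hCR hne)
          omega
      have hsum := sum_le_sum hE
      rw [sum_add_distrib, ← mul_sum, ← hB, ← sum_heights (fun i => (hin i).2) J1, sum_const, card_range,
        smul_eq_mul] at hsum
      have hd := sum_distinct J1 b (fun i _ => (hpos i).2) (by
        intro i hi j hj hij
        by_contra hne
        have e1 := (mem_filter.1 hi).2
        have e2 := (mem_filter.1 hj).2
        exact hadm i j hne (Or.inl ⟨by rw [e1, e2], hij⟩))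
      -- k1 ≤ E
      have hfin : n + J1.card ≤ ∑ i ∈ J, b i := by
        set c := J1.card with hcdef
        have h6 : c * (c + 1) + 4 * n ≤ 4 * ∑ i ∈ J, b i := by omega
        have h7 : 4 * c ≤ c * (c + 1) + 3 := by
          rcases Nat.lt_or_ge c 3 with h | h
          · interval_cases c <;> norm_num
          · nlinarith
        omega
      omega
  · -- no tile of width h
    push Not at hcase
    have hlt : ∀ j ∈ J, a j < h := fun j hj => lt_of_le_of_ne (hle j hj) (hcase j hj)
    have hRc : ∀ v ∈ range n, 2 ≤ (R v).card := by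
      intro v hv
      have h1 := hrow v (mem_range.1 hv)
      by_contra hlt2
      push Not at hlt2
      have h3 : (R v).card ≤ 1 := by omega
      rcases Nat.eq_zero_or_pos (R v).card with h4 | h4
      · rw [card_eq_zero] at h4
        rw [h4, sum_empty] at h1
        omega
      · obtain ⟨j, hj⟩ := card_eq_one.1 (le_antisymm h3 h4)
        rw [hj, sum_singleton] at h1
        have : j ∈ R v := by rw [hj]; exact mem_singleton_self j
        have := hlt j (mem_filter.1 this).1
        omega
    have := sum_le_sum hRc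
    rw [← hB, sum_const, card_range, smul_eq_mul] at this
    omega

/-- if no tile has full width, every row is crossed by at least two tiles -/
theorem two_per_row {n m : ℕ} {X Y a b : Fin m → ℕ} (hin : ∀ i, X i + a i ≤ n ∧ Y i + b i ≤ n)
    (hc : ∀ u < n, ∀ v < n, ∃! i, cellIn X Y a b u v i) (hna : ∀ i, a i ≠ n) (hn : 0 < n) :
    2 * n ≤ ∑ i, b i := by
  classical
  rw [sum_heights (fun i => (hin i).2) univ]
  have hRc : ∀ v ∈ range n, 2 ≤ (univ.filter fun i => Y i ≤ v ∧ v < Y i + b i).card := by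
    intro v hv
    have h1 := row_identity hin hc v (mem_range.1 hv)
    set R := univ.filter fun i => Y i ≤ v ∧ v < Y i + b i with hR
    by_contra hlt2
    push Not at hlt2
    have h3 : R.card ≤ 1 := by omega
    rcases Nat.eq_zero_or_pos R.card with h4 | h4
    · rw [card_eq_zero] at h4
      rw [h4, sum_empty] at h1
      omega
    · obtain ⟨j, hj⟩ := card_eq_one.1 (le_antisymm h3 h4)
      rw [hj, sum_singleton] at h1
      exact hna j h1
  have := sum_le_sum hRc
  rw [sum_const, card_range, smul_eq_mul] at this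
  omega

theorem lower_bound {n m : ℕ} (hm : 5 ≤ m) (hn1 : (m - 2) * (m - 1) ≤ 2 * n) (hn2 : 2 * n < (m - 1) * m)
    (x y : Fin m → ℝ) (a b : Fin m → ℕ) (h : Admissible n m x y a b) :
    3 * n + 2 * (m - 2) ≤ ∑ i, a i + ∑ i, b i := by
  obtain ⟨X, Y, hin, hc⟩ := cells_of_admissible n m x y a b h
  obtain ⟨hpos, -, -, hadm⟩ := h
  have hin' : ∀ i, Y i + b i ≤ n ∧ X i + a i ≤ n := fun i => ⟨(hin i).2, (hin i).1⟩
  have hc' : ∀ u < n, ∀ v < n, ∃! i, cellIn Y X b a u v i := by
    intro u hu v hv
    obtain ⟨i, hi, hui⟩ := hc v hv u hu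
    refine ⟨i, ⟨hi.2.2.1, hi.2.2.2, hi.1, hi.2.1⟩, ?_⟩
    intro j hj
    exact hui j ⟨hj.2.2.1, hj.2.2.2, hj.1, hj.2.1⟩
  by_cases h1 : ∃ i, b i = n
  · obtain ⟨i0, hi0⟩ := h1
    exact full_height hm hn1 hn2 hpos hin hc hadm i0 hi0
  by_cases h2 : ∃ i, a i = n
  · obtain ⟨i0, hi0⟩ := h2
    have := full_height hm hn1 hn2 (fun i => ⟨(hpos i).2, (hpos i).1⟩) hin' hc' (by
      intro i j hij hcon
      apply hadm i j hij
      rcases hcon with ⟨e1, e2⟩ | ⟨e1, e2⟩
      · exact Or.inl ⟨e2, e1⟩
      · exact Or.inr ⟨e2, e1⟩) i0 hi0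
    omega
  push Not at h1 h2
  obtain ⟨k, hk⟩ : ∃ k, m = k + 2 := ⟨m - 2, by omega⟩
  have hn1' : k * (k + 1) ≤ 2 * n := by
    rw [hk] at hn1; simpa using hn1
  have hk3 : 3 ≤ k := by omega
  have h2k : 2 * k ≤ n := by nlinarith
  have e1 := two_per_row hin hc h2 (by omega)
  have e2 := two_per_row hin' hc' h1 (by omega)
  omega

end counting

/-! ## the construction -/

/-- heights of the tiles -/
def bb (n M : ℕ) (i : ℕ) : ℕ :=
  if i = 0 then n else if i ≤ 3 then i else if i < M + 4 then i - 2 else n - 2 - T (M + 1)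

/-- widths of the tiles -/
def aa (n : ℕ) (i : ℕ) : ℕ := if i = 0 then n - 2 else if i ≤ 3 then 1 else 2

/-- left coordinates -/
def xx (i : ℕ) : ℕ := if i = 0 then 2 else if i = 3 then 1 else 0

/-- bottom coordinates -/
def yy (i : ℕ) : ℕ := if i = 2 then 1 else if i ≤ 3 then 0 else 2 + T (i - 3)

theorem T_succ (j : ℕ) : T (j + 1) = T j + (j + 1) := by
  unfold T
  have h1 : (j + 1) * (j + 1 + 1) = j * (j + 1) + (j + 1) * 2 := by ring
  rw [h1, Nat.add_mul_div_right _ _ (by norm_num)]

theorem T_mono {i j : ℕ} (h : i ≤ j) : T i ≤ T j := by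
  induction h with
  | refl => exact le_refl _
  | step _ ih => rw [T_succ]; omega

theorem two_T (j : ℕ) : 2 * T j = j * (j + 1) := by
  induction j with
  | zero => rfl
  | succ j ih => rw [T_succ, mul_add, ih]; ring

theorem disjoint_of {x y x' y' : ℝ} {a b a' b' : ℕ}
    (h : x + a ≤ x' ∨ x' + a' ≤ x ∨ y + b ≤ y' ∨ y' + b' ≤ y) :
    Disjoint (interior (tile x y a b)) (interior (tile x' y' a' b')) := by
  rw [tile, tile, interior_prod_eq, interior_prod_eq, interior_Icc, interior_Icc, interior_Icc, interior_Icc,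
    Set.disjoint_left]
  rintro p ⟨⟨h1, h2⟩, ⟨h3, h4⟩⟩ ⟨⟨h5, h6⟩, ⟨h7, h8⟩⟩
  rcases h with h | h | h | h <;> linarith

theorem upper_bound {n M : ℕ} (hn : T (M + 3) ≤ n) :
    ∃ (x y : Fin (M + 5) → ℝ) (a b : Fin (M + 5) → ℕ), Admissible n (M + 5) x y a b ∧
      ∑ i, a i + ∑ i, b i = 3 * n + 2 * (M + 3) := by
  classical
  have hT1 : T (M + 3) = T (M + 1) + (M + 2) + (M + 3) := by rw [T_succ, T_succ]
  have hT2 : 1 ≤ T (M + 1) := by have := T_mono (show 1 ≤ M + 1 by omega); simpa [T] using this
  have hT3 : M + 1 ≤ T (M + 1) := by rw [T_succ]; omega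
  set t := T (M + 1) with ht
  have hn6 : t + 2 * M + 5 ≤ n := by omega
  have hy1 : yy 1 = 0 := by simp [yy]
  have hy2 : yy 2 = 1 := by simp [yy]
  have hy3 : yy 3 = 0 := by simp [yy]
  have hy4 : yy 4 = 3 := by simp [yy, T]
  have hyy : ∀ i, 4 ≤ i → yy i = 2 + T (i - 3) := by
    intro i hi; unfold yy; rw [if_neg (by omega), if_neg (by omega)]
  have hb4 : ∀ i, 4 ≤ i → i < M + 4 → bb n M i = i - 2 := by
    intro i h1 h2; unfold bb; rw [if_neg (by omega), if_neg (by omega), if_pos h2]
  have hbl : bb n M (M + 4) = n - 2 - t := by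
    unfold bb; rw [if_neg (by omega), if_neg (by omega), if_neg (by omega)]
  have ha4 : ∀ i, 4 ≤ i → aa n i = 2 := by
    intro i h1; unfold aa; rw [if_neg (by omega), if_neg (by omega)]
  have hx4 : ∀ i, 4 ≤ i → xx i = 0 := by
    intro i h1; unfold xx; rw [if_neg (by omega), if_neg (by omega)]
  have hb0 : bb n M 0 = n := by simp [bb]
  have ha0 : aa n 0 = n - 2 := by simp [aa]
  have hx0 : xx 0 = 2 := by simp [xx]
  have hy0 : yy 0 = 0 := by simp [yy]
  have hb1 : bb n M 1 = 1 := by simp [bb]
  have hb2 : bb n M 2 = 2 := by simp [bb]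
  have hb3 : bb n M 3 = 3 := by simp [bb]
  have ha1 : aa n 1 = 1 := by simp [aa]
  have ha2 : aa n 2 = 1 := by simp [aa]
  have ha3 : aa n 3 = 1 := by simp [aa]
  have hx1 : xx 1 = 0 := by simp [xx]
  have hx2 : xx 2 = 0 := by simp [xx]
  have hx3 : xx 3 = 1 := by simp [xx]
  -- stacked tiles
  have hY : ∀ i, 4 ≤ i → i < M + 4 → yy i + bb n M i = yy (i + 1) := by
    intro i h1 h2
    rw [hyy i h1, hyy (i + 1) (by omega), hb4 i h1 h2]
    obtain ⟨j, rfl⟩ : ∃ j, i = j + 4 := ⟨i - 4, by omega⟩
    have e : j + 4 + 1 - 3 = (j + 4 - 3) + 1 := by omega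
    rw [e, T_succ]; omega
  have hYlast : yy (M + 4) + bb n M (M + 4) = n := by
    rw [hyy (M + 4) (by omega), hbl]
    have e : M + 4 - 3 = M + 1 := by omega
    rw [e, ← ht]; omega
  have hYmono : ∀ i j, 4 ≤ i → i < j → j < M + 5 → yy i + bb n M i ≤ yy j := by
    intro i j h1 h2 h3
    rw [hY i h1 (by omega), hyy (i + 1) (by omega), hyy j (by omega)]
    have := T_mono (show i + 1 - 3 ≤ j - 3 by omega)
    omega
  have hYge : ∀ i, 4 ≤ i → 3 ≤ yy i := by
    intro i h1
    rw [hyy i h1]
    have := T_mono (show 1 ≤ i - 3 by omega)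
    have h1 : T 1 = 1 := by simp [T]
    omega
  have hYn : ∀ i, i < M + 5 → yy i + bb n M i ≤ n := by
    intro i hi
    rcases Nat.lt_or_ge i 4 with h | h
    · interval_cases i <;> omega
    · rcases Nat.lt_or_ge i (M + 4) with h' | h'
      · rw [hY i h h', hyy (i + 1) (by omega)]
        have := T_mono (show i + 1 - 3 ≤ M + 1 by omega)
        omega
      · have : i = M + 4 := by omega
        rw [this, hYlast]
  have hXn : ∀ i, i < M + 5 → xx i + aa n i ≤ n := by
    intro i hi
    rcases Nat.lt_or_ge i 4 with h | h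
    · interval_cases i <;> omega
    · rw [hx4 i h, ha4 i h]; omega
  have hpos : ∀ i, i < M + 5 → 0 < aa n i ∧ 0 < bb n M i := by
    intro i hi
    rcases Nat.lt_or_ge i 4 with h | h
    · interval_cases i <;> omega
    · rw [ha4 i h]
      rcases Nat.lt_or_ge i (M + 4) with h' | h'
      · rw [hb4 i h h']; omega
      · have : i = M + 4 := by omega
        rw [this, hbl]; omega
  have hX2 : ∀ i, 1 ≤ i → xx i + aa n i ≤ 2 := by
    intro i hi
    rcases Nat.lt_or_ge i 4 with h | h
    · interval_cases i <;> omega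
    · rw [hx4 i h, ha4 i h]
  have hbn : ∀ i, 1 ≤ i → i < M + 5 → bb n M i < n := by
    intro i h1 h2
    rcases Nat.lt_or_ge i 4 with h | h
    · interval_cases i <;> omega
    · rcases Nat.lt_or_ge i (M + 4) with h' | h'
      · rw [hb4 i h h']; omega
      · have : i = M + 4 := by omega
        rw [this, hbl]; omega
  have hb4' : ∀ i, 4 ≤ i → i < M + 5 → 2 ≤ bb n M i := by
    intro i h1 h2
    rcases Nat.lt_or_ge i (M + 4) with h' | h'
    · rw [hb4 i h1 h']; omega
    · have : i = M + 4 := by omega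
      rw [this, hbl]; omega
  have ha12 : ∀ i, 1 ≤ i → aa n i = 1 ∨ aa n i = 2 := by
    intro i hi
    unfold aa
    rw [if_neg (by omega)]
    split_ifs
    · left; rfl
    · right; rfl
  -- separation for i < j
  have hsep : ∀ i j, i < j → j < M + 5 → xx i + aa n i ≤ xx j ∨ xx j + aa n j ≤ xx i ∨
      yy i + bb n M i ≤ yy j ∨ yy j + bb n M j ≤ yy i := by
    intro i j hij hj
    rcases Nat.lt_or_ge i 4 with hi4 | hi4
    · rcases Nat.lt_or_ge j 4 with hj4 | hj4
      · interval_cases i <;> interval_cases j <;> omega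
      · have := hYge j hj4
        interval_cases i
        · right; left; rw [hx0]; exact hX2 j (by omega)
        · omega
        · omega
        · omega
    · exact Or.inr (Or.inr (Or.inl (hYmono i j hi4 hij hj)))
  refine ⟨fun i => (xx i : ℕ), fun i => (yy i : ℕ), fun i => aa n i, fun i => bb n M i,
    ⟨fun i => hpos i i.2, ?_, ?_, ?_⟩, ?_⟩
  · -- union
    apply Set.Subset.antisymm
    · apply Set.iUnion_subset
      rintro i ⟨p, q⟩ ⟨⟨h1, h2⟩, ⟨h3, h4⟩⟩
      have g1 : ((xx i : ℕ) : ℝ) + aa n i ≤ n := by exact_mod_cast hXn i i.2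
      have g2 : ((yy i : ℕ) : ℝ) + bb n M i ≤ n := by exact_mod_cast hYn i i.2
      have g3 : (0 : ℝ) ≤ (xx i : ℕ) := Nat.cast_nonneg _
      have g4 : (0 : ℝ) ≤ (yy i : ℕ) := Nat.cast_nonneg _
      exact ⟨⟨by linarith, by linarith⟩, ⟨by linarith, by linarith⟩⟩
    · rintro ⟨p, q⟩ ⟨⟨h1, h2⟩, ⟨h3, h4⟩⟩
      simp only at h1 h2 h3 h4
      have hn6' : (6 : ℝ) ≤ n := by
        have : 6 ≤ n := by omega
        exact_mod_cast this
      have key : ∀ i, i < M + 5 → ((xx i : ℕ) : ℝ) ≤ p → p ≤ (xx i : ℕ) + (aa n i : ℕ) → ((yy i : ℕ) : ℝ) ≤ q →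
          q ≤ (yy i : ℕ) + (bb n M i : ℕ) →
          ((p, q) : ℝ × ℝ) ∈ ⋃ i : Fin (M + 5), tile ((xx i : ℕ) : ℝ) ((yy i : ℕ) : ℝ) (aa n i) (bb n M i) := by
        intro i hi e1 e2 e3 e4
        exact Set.mem_iUnion.2 ⟨⟨i, hi⟩, ⟨e1, e2⟩, ⟨e3, e4⟩⟩
      rcases le_total 2 p with hp | hp
      · apply key 0 (by omega)
        · rw [hx0]; push_cast; exact hp
        · rw [hx0, ha0, Nat.cast_sub (by omega)]; push_cast; linarith
        · rw [hy0]; push_cast; exact h3
        · rw [hy0, hb0]; push_cast; linarith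
      · rcases le_total q 3 with hq | hq
        · rcases le_total 1 p with hp1 | hp1
          · apply key 3 (by omega)
            · rw [hx3]; push_cast; exact hp1
            · rw [hx3, ha3]; push_cast; linarith
            · rw [hy3]; push_cast; exact h3
            · rw [hy3, hb3]; push_cast; linarith
          · rcases le_total q 1 with hq1 | hq1
            · apply key 1 (by omega)
              · rw [hx1]; push_cast; exact h1
              · rw [hx1, ha1]; push_cast; linarith
              · rw [hy1]; push_cast; exact h3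
              · rw [hy1, hb1]; push_cast; linarith
            · apply key 2 (by omega)
              · rw [hx2]; push_cast; exact h1
              · rw [hx2, ha2]; push_cast; linarith
              · rw [hy2]; push_cast; exact hq1
              · rw [hy2, hb2]; push_cast; linarith
        · -- the stack
          have hP4 : 4 ≤ 4 ∧ ((yy 4 : ℕ) : ℝ) ≤ q := ⟨le_refl _, by rw [hy4]; push_cast; exact hq⟩
          set i := Nat.findGreatest (fun i => 4 ≤ i ∧ ((yy i : ℕ) : ℝ) ≤ q) (M + 4) with hi
          have hspec : 4 ≤ i ∧ ((yy i : ℕ) : ℝ) ≤ q :=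
            Nat.findGreatest_spec (P := fun i => 4 ≤ i ∧ ((yy i : ℕ) : ℝ) ≤ q) (by omega) hP4
          have hile : i ≤ M + 4 := Nat.findGreatest_le _
          apply key i (by omega)
          · rw [hx4 i hspec.1]; push_cast; exact h1
          · rw [hx4 i hspec.1, ha4 i hspec.1]; push_cast; linarith
          · exact hspec.2
          · rcases Nat.lt_or_ge i (M + 4) with h' | h'
            · have hnot : ¬ (4 ≤ i + 1 ∧ ((yy (i + 1) : ℕ) : ℝ) ≤ q) :=
                Nat.findGreatest_is_greatest (P := fun i => 4 ≤ i ∧ ((yy i : ℕ) : ℝ) ≤ q) (Nat.lt_succ_self i)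
                  (by omega)
              have : q < ((yy (i + 1) : ℕ) : ℝ) := by
                by_contra hle
                push Not at hle
                exact hnot ⟨by omega, hle⟩
              have e : ((yy i : ℕ) : ℝ) + (bb n M i : ℕ) = ((yy (i + 1) : ℕ) : ℝ) := by
                exact_mod_cast hY i hspec.1 h'
              linarith
            · have : i = M + 4 := by omega
              rw [this]
              have e : ((yy (M + 4) : ℕ) : ℝ) + (bb n M (M + 4) : ℕ) = n := by exact_mod_cast hYlast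
              linarith
  · intro i j hij
    have hij' : (i : ℕ) ≠ j := fun h => hij (Fin.ext h)
    apply disjoint_of
    rcases lt_or_gt_of_ne hij' with h | h
    · rcases hsep i j h j.2 with h | h | h | h
      · left; beta_reduce; exact_mod_cast h
      · right; left; beta_reduce; exact_mod_cast h
      · right; right; left; beta_reduce; exact_mod_cast h
      · right; right; right; beta_reduce; exact_mod_cast h
    · rcases hsep j i h i.2 with h | h | h | h
      · right; left; beta_reduce; exact_mod_cast h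
      · left; beta_reduce; exact_mod_cast h
      · right; right; right; beta_reduce; exact_mod_cast h
      · right; right; left; beta_reduce; exact_mod_cast h
  · have hadm : ∀ i j, i < j → j < M + 5 → ¬ ((aa n i = aa n j ∧ bb n M i = bb n M j) ∨
        (aa n i = bb n M j ∧ bb n M i = aa n j)) := by
      intro i j hij hj
      have q1 := hbn j (by omega) hj
      have q2 := ha12 j (by omega)
      rcases Nat.lt_or_ge i 4 with hi4 | hi4
      · rcases Nat.lt_or_ge j 4 with hj4 | hj4
        · interval_cases i <;> interval_cases j <;> omega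
        · have q3 := hb4' j hj4 hj
          have q4 := ha4 j hj4
          interval_cases i <;> omega
      · have q3 := hb4' j (by omega) hj
        have q4 := ha4 j (by omega)
        have q5 := ha4 i hi4
        have q6 : bb n M i < bb n M j := by
          rw [hb4 i hi4 (by omega)]
          rcases Nat.lt_or_ge j (M + 4) with h' | h'
          · rw [hb4 j (by omega) h']; omega
          · have : j = M + 4 := by omega
            rw [this, hbl]; omega
        have q7 := hb4' i hi4 (by omega)
        omega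
    intro i j hij hcon
    have hij' : (i : ℕ) ≠ j := fun h => hij (Fin.ext h)
    simp only at hcon
    rcases lt_or_gt_of_ne hij' with h | h
    · exact hadm i j h j.2 hcon
    · refine hadm j i h i.2 ?_
      rcases hcon with ⟨e1, e2⟩ | ⟨e1, e2⟩
      · exact Or.inl ⟨e1.symm, e2.symm⟩
      · exact Or.inr ⟨e2.symm, e1.symm⟩
  · rw [Fin.sum_univ_eq_sum_range (fun i => aa n i) (M + 5), Fin.sum_univ_eq_sum_range (fun i => bb n M i) (M + 5)]
    have hA : ∑ i ∈ Finset.range (M + 5), aa n i = n - 2 + 3 + 2 * (M + 1) := by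
      have key : ∀ K, ∑ i ∈ Finset.range (K + 4), aa n i = n - 2 + 3 + 2 * K := by
        intro K
        induction K with
        | zero =>
          simp only [Nat.zero_add, Finset.sum_range_succ, Finset.sum_range_zero, ha0, ha1, ha2, ha3]
        | succ K ih =>
          rw [show K + 1 + 4 = (K + 4) + 1 by ring, Finset.sum_range_succ, ih, ha4 (K + 4) (by omega)]
          ring
      exact key (M + 1)
    have hB : ∑ i ∈ Finset.range (M + 5), bb n M i = 2 * n + 3 := by
      have key : ∀ K, K ≤ M → ∑ i ∈ Finset.range (K + 4), bb n M i = n + 3 + yy (K + 4) := by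
        intro K
        induction K with
        | zero =>
          intro _
          simp only [Nat.zero_add, Finset.sum_range_succ, Finset.sum_range_zero, hb0, hb1, hb2, hb3, hy4]
        | succ K ih =>
          intro hK
          rw [show K + 1 + 4 = (K + 4) + 1 by ring, Finset.sum_range_succ, ih (by omega)]
          have := hY (K + 4) (by omega) (by omega)
          omega
      rw [Finset.sum_range_succ, key M (le_refl M)]
      omega
    rw [hA, hB]
    omega

/-- In the middle regime `T_{m-2} ≤ n < T_{m-1}` (for every `m ≥ 5`) admissible tilings exist and the minimal internal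
wall length is `n + 2 (m - 2)`. -/
theorem result : ∀ m ≥ 5, ∀ n : ℕ, T (m - 2) ≤ n → n < T (m - 1) →
    IsLeast {w : ℤ | ∃ (x y : Fin m → ℝ) (a b : Fin m → ℕ), Admissible n m x y a b ∧ w = W n m a b}
      ((n : ℤ) + 2 * ((m : ℤ) - 2)) := by
  intro m hm n h1 h2
  obtain ⟨M, rfl⟩ : ∃ M, m = M + 5 := ⟨m - 5, by omega⟩
  have e1 : M + 5 - 2 = M + 3 := by omega
  have e2 : M + 5 - 1 = M + 4 := by omega
  rw [e1] at h1
  rw [e2] at h2
  have hW : ∀ a b : Fin (M + 5) → ℕ, W n (M + 5) a b = ((∑ i, a i + ∑ i, b i : ℕ) : ℤ) - 2 * n := by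
    intro a b
    unfold W
    rw [Finset.sum_add_distrib]
    push_cast
    ring
  constructor
  · obtain ⟨x, y, a, b, hadm, hsum⟩ := upper_bound h1
    refine ⟨x, y, a, b, hadm, ?_⟩
    rw [hW, hsum]
    push_cast
    ring
  · rintro w ⟨x, y, a, b, hadm, rfl⟩
    have hT := two_T (M + 3)
    have hT' := two_T (M + 4)
    have h3 := lower_bound (n := n) (m := M + 5) (by omega) (by
      rw [e1, e2, ← hT]; omega) (by rw [e2, ← hT']; omega) x y a b hadm
    rw [e1] at h3
    rw [hW]
    have h4 : ((3 * n + 2 * (M + 3) : ℕ) : ℤ) ≤ ((∑ i, a i + ∑ i, b i : ℕ) : ℤ) := by exact_mod_cast h3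
    push_cast at h4 ⊢
    linarith

end Pool.Agent.Results.MP_88b750_co.MiddleRegime
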